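import Pool.Agent.U619.BS.Lim
import Pool.Agent.R988.NQ.WF

/-! # The ballistic scaling limit, deterministic part; eigenvectors have velocity zero -/

set_option autoImplicit false

open MeasureTheory Filter Topology
open scoped BigOperators ENNReal NNReal InnerProductSpace ComplexConjugate

namespace Pool.Agent.U619.BS

open Pool.Agent.H5R2.NB Pool.Agent.H5R2.NB.MOM Pool.Agent.U619.NB

variable {d : ℕ}

/-! ### the virial theorem -/

theorem inner_shift (W : UG (L2 (Site d))) (v : L2 (Site d) →L[ℂ] L2 (Site d)) (E : ℝ)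
    (χ φ : L2 (Site d)) (hχ : ∀ t, W.U t χ = Complex.exp (-(Complex.I * E * t)) • χ)
    (hφ : ∀ t, W.U t φ = Complex.exp (-(Complex.I * E * t)) • φ) (s : ℝ) :
    ⟪χ, W.U (-s) (v (W.U s φ))⟫_ℂ = ⟪χ, v φ⟫_ℂ := by
  have h1 : ⟪χ, W.U (-s) (v (W.U s φ))⟫_ℂ = ⟪W.U s χ, v (W.U s φ)⟫_ℂ := by
    rw [← inner_U W s, U_inv]
  rw [h1, hχ s, hφ s, map_smul, inner_smul_left, inner_smul_right, ← mul_assoc]
  have h2 : (starRingEnd ℂ) (Complex.exp (-(Complex.I * E * s))) *
      Complex.exp (-(Complex.I * E * s)) = 1 := by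
    rw [← Complex.exp_conj, ← Complex.exp_add]
    have : (starRingEnd ℂ) (-(Complex.I * E * s)) + -(Complex.I * E * s) = 0 := by
      simp
    rw [this, Complex.exp_zero]
  rw [h2, one_mul]

theorem virial (c : ℝ) (V : Site d → ℝ) (W : UG (L2 (Site d))) (hW : IsGrp c V W) (j : Fin d)
    (v : L2 (Site d) →L[ℂ] L2 (Site d)) (hv : IsVel c j v) (E : ℝ) (χ φ : L2 (Site d))
    (hχ : ∀ t, W.U t χ = Complex.exp (-(Complex.I * E * t)) • χ)
    (hφ : ∀ t, W.U t φ = Complex.exp (-(Complex.I * E * t)) • φ) : ⟪χ, v φ⟫_ℂ = 0 := by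
  obtain ⟨Sp, hp⟩ := (t_OPS d).1 (Pi.single j 1)
  obtain ⟨Sm, hm⟩ := (t_OPS d).1 (-Pi.single j 1)
  have hcw : Continuous fun s => W.U s φ := W.cont' _
  have key : ∀ R : ℕ, ⟪χ, vR c j R Sp Sm φ⟫_ℂ = 0 := by
    intro R
    have hch : Continuous fun s => vR c j R Sp Sm (W.U s φ) :=
      (vR c j R Sp Sm).continuous.comp hcw
    have hU := ALL.a_UN d c V W hW _ _ hch
      (Pool.Agent.R988.NQ.isSol2 c V W hW j R Sp Sm hp hm φ) 1
    have e1 : ∫ s in (0 : ℝ)..1, W.U (1 - s) (vR c j R Sp Sm (W.U s φ)) =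
        W.U 1 (∫ s in (0 : ℝ)..1, W.U (-s) (vR c j R Sp Sm (W.U s φ))) := by
      rw [← ContinuousLinearMap.intervalIntegral_comp_comm _
        ((cont_comp W _ hch).intervalIntegrable 0 1)]
      refine intervalIntegral.integral_congr fun s _ => ?_
      show W.U (1 - s) _ = W.U 1 (W.U (-s) _)
      rw [← W.add', sub_eq_add_neg]
    rw [e1, W.zero', ← map_add] at hU
    have h1 : ⟪W.U 1 χ, mulop (xi j R) R (xi_abs j R) (W.U 1 φ)⟫_ℂ =
        ⟪χ, mulop (xi j R) R (xi_abs j R) φ⟫_ℂ := by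
      have := inner_shift W (mulop (xi j R) R (xi_abs j R)) E χ φ hχ hφ 1
      rw [← this, ← inner_U W 1 χ, U_inv]
    have h2 : ⟪W.U 1 χ, mulop (xi j R) R (xi_abs j R) (W.U 1 φ)⟫_ℂ =
        ⟪χ, mulop (xi j R) R (xi_abs j R) φ⟫_ℂ +
          ⟪χ, ∫ s in (0 : ℝ)..1, W.U (-s) (vR c j R Sp Sm (W.U s φ))⟫_ℂ := by
      rw [hU, inner_U, inner_add_right]
    have h3 : ⟪χ, ∫ s in (0 : ℝ)..1, W.U (-s) (vR c j R Sp Sm (W.U s φ))⟫_ℂ =
        ⟪χ, vR c j R Sp Sm φ⟫_ℂ := by
      have h4 := (innerSL ℂ χ).intervalIntegral_comp_comm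
        ((cont_comp W _ hch).intervalIntegrable (μ := volume) 0 1)
      simp only [innerSL_apply_apply] at h4
      rw [← h4]
      have h5 : ∀ s, ⟪χ, W.U (-s) (vR c j R Sp Sm (W.U s φ))⟫_ℂ = ⟪χ, vR c j R Sp Sm φ⟫_ℂ :=
        fun s => inner_shift W (vR c j R Sp Sm) E χ φ hχ hφ s
      simp only [h5]
      simp
    rw [h1, h3] at h2
    exact (left_eq_add.1 h2)
  have h1 : Tendsto (fun R : ℕ => ⟪χ, vR c j R Sp Sm φ⟫_ℂ) atTop (𝓝 ⟪χ, v φ⟫_ℂ) :=
    (continuous_const.inner continuous_id).continuousAt.tendsto.comp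
      (vR_tendsto c j Sp Sm v hp hm hv φ)
  exact tendsto_nhds_unique h1 (by simp [key])

theorem eig_zero (c : ℝ) (V : Site d → ℝ) (W : UG (L2 (Site d))) (hW : IsGrp c V W) (j : Fin d)
    (v B : L2 (Site d) →L[ℂ] L2 (Site d)) (hv : IsVel c j v)
    (hB : ∀ u, Tendsto (fun N : ℕ => avP W v N u) atTop (𝓝 (B u))) (E : ℝ) (φ : L2 (Site d))
    (hφ : ∀ t, W.U t φ = Complex.exp (-(Complex.I * E * t)) • φ) : B φ = 0 := by
  have hcomm : ∀ t, W.U t (B φ) = B (W.U t φ) := by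
    intro t
    have h2 : Tendsto (fun k : ℕ => W.U t (avP W v k φ)) atTop (𝓝 (W.U t (B φ))) :=
      ((W.U t).continuous.tendsto _).comp (hB φ)
    have h3 : Tendsto (fun k : ℕ => avP W v k (W.U t φ) - W.U t (avP W v k φ)) atTop (𝓝 0) := by
      refine squeeze_zero_norm (fun k => BP.avP_shift _ v k φ t) ?_
      have h4 : Tendsto (fun k : ℕ => (k : ℝ)⁻¹) atTop (𝓝 0) :=
        tendsto_inv_atTop_zero.comp tendsto_natCast_atTop_atTop
      simpa using h4.mul_const (2 * (‖v‖ * ‖φ‖ * |t|))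
    have h5 := tendsto_nhds_unique h3 ((hB (W.U t φ)).sub h2)
    exact (sub_eq_zero.1 h5.symm).symm
  have hχ : ∀ t, W.U t (B φ) = Complex.exp (-(Complex.I * E * t)) • B φ := by
    intro t
    rw [hcomm t, hφ t, map_smul]
  have h0 := virial c V W hW j v hv E (B φ) φ hχ hφ
  have h1 : Tendsto (fun N : ℕ => ⟪B φ, avP W v N φ⟫_ℂ) atTop (𝓝 ⟪B φ, B φ⟫_ℂ) :=
    (continuous_const.inner continuous_id).continuousAt.tendsto.comp (hB φ)
  have h2 : ∀ N : ℕ, ⟪B φ, avP W v N φ⟫_ℂ = 0 := by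
    intro N
    unfold avP
    rw [inner_smul_right]
    have hcw : Continuous fun s => v (W.U s φ) := v.continuous.comp (W.cont' _)
    have h4 := (innerSL ℂ (B φ)).intervalIntegral_comp_comm
      ((cont_comp W _ hcw).intervalIntegrable (μ := volume) (0 : ℝ) N)
    simp only [innerSL_apply_apply] at h4
    have h5 : ∀ s, ⟪B φ, W.U (-s) (v (W.U s φ))⟫_ℂ = 0 := fun s => by
      rw [inner_shift W v E (B φ) φ hχ hφ s, h0]
    have h6 : ⟪B φ, ∫ s in (0 : ℝ)..(N : ℝ), W.U (-s) (v (W.U s φ))⟫_ℂ = 0 := by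
      refine h4.symm.trans ?_
      simp only [h5]
      simp
    exact mul_eq_zero_of_right _ h6
  have h3 : ⟪B φ, B φ⟫_ℂ = 0 := tendsto_nhds_unique h1 (by simp [h2])
  exact inner_self_eq_zero.1 h3

/-! ### the scaling limit -/

theorem cf_conv (c : ℝ) (κ M : ℝ) (hκ : 0 < κ) (hM2 : 2 * κ ≤ M) (hM : 0 ≤ M) (V : Site d → ℝ)
    (W : UG (L2 (Site d))) (hW : IsGrp c V W) (j : Fin d)
    (hexp : ∀ (u : L2 (Site d)) (t : ℝ), 0 ≤ t →
      EE j (W.U t u) ≤ ENNReal.ofReal (Real.exp (κ * t) ^ 2) * EE j u)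
    (v B : L2 (Site d) →L[ℂ] L2 (Site d)) (hv : IsVel c j v)
    (hB : ∀ u, Tendsto (fun N : ℕ => avP W v N u) atTop (𝓝 (B u))) (u : L2 (Site d)) :
    Tendsto (fun t => GG W M hM (cf M j) t u) atTop (𝓝 (B u)) := by
  refine dense_tendsto (fun t u => GG W M hM (cf M j) t u) B ‖(cf M j : C(KK d M, ℝ))‖
    (norm_nonneg _) (fun t u w => GG_addv W M hM _ t u w) (fun t a u => GG_smulv W M hM _ t a u)
    (fun t u => GG_norm W M hM _ t u) (fun z => ?_) u
  have h1 := coord_dl c V W hW j κ M hκ hM2 hexp v hv z (B (dl z))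
    (Pool.Agent.R988.NQ.real_times' W v (dl z) (B (dl z)) (hB (dl z)))
  refine h1.congr fun t => ?_
  exact FF_congr W _ _ _ _ _ _ (fun x => rfl) t (dl z)

theorem scaling (d : ℕ) (c : ℝ) : ∃ M : ℝ, 0 < M ∧ ∀ (V : Site d → ℝ) (W : UG (L2 (Site d))),
    IsGrp c V W → ∀ v B : Fin d → (L2 (Site d) →L[ℂ] L2 (Site d)), (∀ j, IsVel c j (v j)) →
      (∀ j u, Tendsto (fun N : ℕ => avP W (v j) N u) atTop (𝓝 (B j u))) →
      ∀ u : L2 (Site d), ∃ m : Measure (Fin d → ℝ), IsFiniteMeasure m ∧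
        m {y | ∃ i, M < |y i|} = 0 ∧
        (∀ f : (Fin d → ℝ) → ℝ, Continuous f → (∃ C, ∀ y, |f y| ≤ C) →
          Tendsto (fun t : ℝ => ∑' x : Site d, f (fun j => (x j : ℝ) / t) * ‖(W.U t u) x‖ ^ 2)
            atTop (𝓝 (∫ y, f y ∂m))) ∧
        (∀ l : List (Fin d), ∫ y, (l.map y).prod ∂m =
          RCLike.re ⟪u, l.foldr (fun i z => B i z) u⟫_ℂ) ∧
        ((∀ j, B j u = 0) → m = ENNReal.ofReal (‖u‖ ^ 2) • Measure.dirac 0) := by
  obtain ⟨κ, hκ, hexp⟩ := exp_bound d c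
  obtain ⟨M, hMdef⟩ : ∃ M, M = 2 * κ + 1 := ⟨_, rfl⟩
  have hM : 0 ≤ M := by rw [hMdef]; positivity
  refine ⟨M, by rw [hMdef]; positivity, ?_⟩
  intro V W hW v B hv hB u
  have hcf : ∀ (j : Fin d) (u : L2 (Site d)),
      Tendsto (fun t => GG W M hM (cf M j) t u) atTop (𝓝 (B j u)) := fun j u =>
    cf_conv c κ M hκ (by linarith) hM V W hW j (fun u t ht => hexp j V W hW u t ht) (v j) (B j)
      (hv j) (hB j) u
  have hSS : ∀ j, cf M j ∈ SS W M hM := fun j u => ⟨B j u, hcf j u⟩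
  obtain ⟨mK, hmK, hlim⟩ := exists_law W M hM u (fun f => all_conv W M hM hSS f u)
  have hval : MeasurableEmbedding (Subtype.val : KK d M → (Fin d → ℝ)) :=
    MeasurableEmbedding.subtype_coe
      ((isCompact_univ_pi fun _ => isCompact_Icc).isClosed.measurableSet)
  have hint : ∀ f : (Fin d → ℝ) → ℝ,
      ∫ y, f y ∂(mK.map Subtype.val) = ∫ y : KK d M, f y.1 ∂mK := fun f =>
    hval.integral_map f
  have hmeanl : ∀ (f : C(KK d M, ℝ)) (y : L2 (Site d)),
      Tendsto (fun t => GG W M hM f t u) atTop (𝓝 y) → ∫ x, f x ∂mK = RCLike.re ⟪u, y⟫_ℂ := by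
    intro f y hy
    have h1 : Tendsto (fun t => ⟪u, GG W M hM f t u⟫_ℂ) atTop (𝓝 ⟪u, y⟫_ℂ) :=
      (continuous_const.inner continuous_id).continuousAt.tendsto.comp hy
    have h2 := (RCLike.continuous_re.tendsto _).comp h1
    refine tendsto_nhds_unique (hlim f) (h2.congr fun t => ?_)
    rw [mean_eq]
    rfl
  refine ⟨mK.map Subtype.val, Measure.isFiniteMeasure_map _ _, ?_, ?_, ?_, ?_⟩
  · have hms : MeasurableSet {y : Fin d → ℝ | ∃ i, M < |y i|} := by
      have : {y : Fin d → ℝ | ∃ i, M < |y i|} = ⋃ i : Fin d, {y | M < |y i|} := by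
        ext y; simp
      rw [this]
      exact MeasurableSet.iUnion fun i => measurableSet_lt measurable_const (by fun_prop)
    rw [Measure.map_apply hval.measurable hms]
    have : (Subtype.val : KK d M → (Fin d → ℝ)) ⁻¹' {y | ∃ i, M < |y i|} = ∅ := by
      ext y
      simp only [Set.mem_preimage, Set.mem_ofPred_eq, Set.mem_empty_iff_false, iff_false]
      rintro ⟨i, hi⟩
      have := y.2 i (Set.mem_univ i)
      have h3 := abs_le.2 ⟨this.1, this.2⟩
      linarith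
    rw [this, measure_empty]
  · intro f hf ⟨C, hC⟩
    obtain ⟨fK, hfK⟩ : ∃ fK : C(KK d M, ℝ), ∀ y, fK y = f y.1 :=
      ⟨⟨fun y => f y.1, hf.comp continuous_subtype_val⟩, fun y => rfl⟩
    have h1 := hlim fK
    have h2 := remove_clamp W M hM κ hκ (by linarith) (fun j u t ht => hexp j V W hW u t ht) u f
      C hC
    have h3 := h2.add h1
    rw [zero_add] at h3
    have h4 : ∫ y, f y ∂(mK.map Subtype.val) = ∫ y, fK y ∂mK := by
      rw [hint]
      exact integral_congr_ae (ae_of_all _ fun y => (hfK y).symm)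
    rw [h4]
    refine h3.congr fun t => ?_
    have h5 : mean W M hM u fK t = ∑' x, f (pt M hM t x).1 * ‖(W.U t u) x‖ ^ 2 := by
      unfold mean
      simp only [hfK]
    rw [h5]
    ring
  · intro l
    have hl : Tendsto (fun t => GG W M hM (l.map (cf M)).prod t u) atTop
        (𝓝 (l.foldr (fun i z => B i z) u)) := by
      induction l with
      | nil =>
        simp only [List.map_nil, List.prod_nil, List.foldr_nil]
        refine tendsto_const_nhds.congr fun t => ?_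
        have := GG_const W M hM 1 t u
        rw [map_one] at this
        rw [this]
        simp
      | cons i l ih =>
        rw [List.map_cons, List.prod_cons, List.foldr_cons]
        have h1 : Tendsto (fun t => GG W M hM (cf M i) t (GG W M hM (l.map (cf M)).prod t u -
            l.foldr (fun i z => B i z) u)) atTop (𝓝 0) := by
          refine squeeze_zero_norm (fun t => GG_norm W M hM _ t _) ?_
          have := (tendsto_iff_norm_sub_tendsto_zero.1 ih).const_mul ‖(cf M i : C(KK d M, ℝ))‖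
          simpa using this
        have h2 := h1.add (hcf i (l.foldr (fun i z => B i z) u))
        rw [zero_add] at h2
        refine h2.congr fun t => ?_
        rw [GG_mul, GG_subv, sub_add_cancel]
    have h1 := hmeanl _ _ hl
    rw [← h1, hint]
    refine integral_congr_ae (ae_of_all _ fun y => ?_)
    have : ∀ l : List (Fin d), (l.map y.1).prod = (l.map (cf M)).prod y := by
      intro l
      induction l with
      | nil => simp
      | cons i l ih => simp [ih, cf]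
    exact this l
  · intro hz
    have hSZ : ∀ j, cf M j ∈ SZ W M hM u := by
      intro j
      show Tendsto (fun t => GG W M hM (cf M j) t u) atTop (𝓝 (((cf M j) (oo M hM) : ℂ) • u))
      have h1 := hcf j u
      rw [hz j] at h1
      have : ((cf M j : C(KK d M, ℝ)) (oo M hM) : ℂ) • u = 0 := by
        have : (cf M j : C(KK d M, ℝ)) (oo M hM) = 0 := rfl
        rw [this]
        simp
      rw [this]
      exact h1
    have hmap : IsFiniteMeasure (mK.map (Subtype.val : KK d M → (Fin d → ℝ))) :=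
      Measure.isFiniteMeasure_map _ _
    have hdir : IsFiniteMeasure (ENNReal.ofReal (‖u‖ ^ 2) • Measure.dirac (0 : Fin d → ℝ)) :=
      Measure.smul_finite _ ENNReal.ofReal_ne_top
    refine ext_of_forall_integral_eq_of_IsFiniteMeasure fun f => ?_
    obtain ⟨fK, hfK⟩ : ∃ fK : C(KK d M, ℝ), ∀ y, fK y = f y.1 :=
      ⟨⟨fun y => f y.1, f.continuous.comp continuous_subtype_val⟩, fun y => rfl⟩
    have h1 := hmeanl fK _ (zero_conv W M hM u hSZ fK)
    rw [hint, integral_smul_measure, integral_dirac, ENNReal.toReal_ofReal (by positivity),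
      smul_eq_mul]
    have h2 : ∫ y : KK d M, f y.1 ∂mK = ∫ y, fK y ∂mK :=
      integral_congr_ae (ae_of_all _ fun y => (hfK y).symm)
    rw [h2, h1, inner_smul_right, hfK]
    have h3 : ((oo M hM : KK d M) : Fin d → ℝ) = 0 := rfl
    rw [h3, inner_self_eq_norm_sq_to_K]
    have h4 : ((f 0 : ℝ) : ℂ) * ((‖u‖ : ℝ) : ℂ) ^ 2 = ((f 0 * ‖u‖ ^ 2 : ℝ) : ℂ) := by
      push_cast
      ring
    have h5 : RCLike.re (((f 0 : ℝ) : ℂ) * ((‖u‖ : ℝ) : ℂ) ^ 2) = f 0 * ‖u‖ ^ 2 := by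
      rw [h4]
      rfl
    rw [mul_comm (‖u‖ ^ 2)]
    exact h5

end Pool.Agent.U619.BS
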