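import Pool.Agent.U619.NB.Exp

/-! # Heisenberg position of a localized state, and bounded functions of the position -/

set_option autoImplicit false

open MeasureTheory Filter Topology
open scoped BigOperators ENNReal NNReal InnerProductSpace ComplexConjugate

namespace Pool.Agent.U619.BS

open Pool.Agent.H5R2.NB Pool.Agent.H5R2.NB.MOM Pool.Agent.R988.NQ Pool.Agent.U619.NB

variable {d : ℕ}

/-- evaluation at a site is continuous -/
theorem eval_tendsto {ι : Type} {l : Filter ι} {f : ι → L2 (Site d)} {g : L2 (Site d)}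
    (h : Tendsto f l (𝓝 g)) (x : Site d) : Tendsto (fun i => f i x) l (𝓝 (g x)) := by
  have h2 : Continuous (fun f : L2 (Site d) => (f : Site d → ℂ) x) :=
    (continuous_apply x).comp (lp.uniformContinuous_coe).continuous
  exact (h2.tendsto g).comp h

/-- the Heisenberg position of `δ_z` in direction `j` at time `t` -/
noncomputable def eta (W : UG (L2 (Site d))) (j : Fin d) (v : L2 (Site d) →L[ℂ] L2 (Site d))
    (z : Site d) (t : ℝ) : L2 (Site d) :=
  ((z j : ℝ) : ℂ) • dl z + ∫ s in (0 : ℝ)..t, W.U (-s) (v (W.U s (dl z)))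

theorem heis (c : ℝ) (V : Site d → ℝ) (W : UG (L2 (Site d))) (hW : IsGrp c V W) (j : Fin d)
    (v : L2 (Site d) →L[ℂ] L2 (Site d)) (hv : IsVel c j v) (z : Site d) (t : ℝ) (x : Site d) :
    (x j : ℂ) * (W.U t (dl z)) x = (W.U t (eta W j v z t)) x := by
  obtain ⟨Sp, hp⟩ := (t_OPS d).1 (Pi.single j 1)
  obtain ⟨Sm, hm⟩ := (t_OPS d).1 (-Pi.single j 1)
  have hcw : Continuous fun s => W.U s (dl z) := W.cont' _
  have key : ∀ R : ℕ, mulop (xi j R) R (xi_abs j R) (W.U t (dl z)) =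
      W.U t (mulop (xi j R) R (xi_abs j R) (dl z) +
        ∫ s in (0 : ℝ)..t, W.U (-s) (vR c j R Sp Sm (W.U s (dl z)))) := by
    intro R
    have hch : Continuous fun s => vR c j R Sp Sm (W.U s (dl z)) :=
      (vR c j R Sp Sm).continuous.comp hcw
    have hU := ALL.a_UN d c V W hW _ _ hch (isSol2 c V W hW j R Sp Sm hp hm (dl z)) t
    have e1 : ∫ s in (0 : ℝ)..t, W.U (t - s) (vR c j R Sp Sm (W.U s (dl z))) =
        W.U t (∫ s in (0 : ℝ)..t, W.U (-s) (vR c j R Sp Sm (W.U s (dl z)))) := by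
      rw [← ContinuousLinearMap.intervalIntegral_comp_comm _
        ((cont_comp W _ hch).intervalIntegrable 0 t)]
      refine intervalIntegral.integral_congr fun s _ => ?_
      show W.U (t - s) _ = W.U t (W.U (-s) _)
      rw [← W.add', sub_eq_add_neg]
    rw [hU, e1, W.zero', map_add]
  have h1 : Tendsto (fun R : ℕ => ∫ s in (0 : ℝ)..t,
      W.U (-s) (vR c j R Sp Sm (W.U s (dl z)))) atTop
      (𝓝 (∫ s in (0 : ℝ)..t, W.U (-s) (v (W.U s (dl z))))) := by
    refine intervalIntegral.tendsto_integral_filter_of_dominated_convergence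
      (bound := fun _ => |c| * (‖Sp‖ + ‖Sm‖) * ‖(dl z : L2 (Site d))‖) ?_ ?_ ?_ ?_
    · refine Eventually.of_forall fun R => ?_
      exact (cont_comp W _ ((vR c j R Sp Sm).continuous.comp hcw)).aestronglyMeasurable
    · refine Eventually.of_forall fun R => ae_of_all _ fun s _ => ?_
      rw [W.norm']
      have := vR_norm_le c j R Sp Sm (W.U s (dl z))
      rwa [W.norm'] at this
    · exact intervalIntegrable_const
    · refine ae_of_all _ fun s _ => ?_
      exact ((W.U (-s)).continuous.tendsto _).comp (vR_tendsto c j Sp Sm v hp hm hv _)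
  have h2 : Tendsto (fun R : ℕ => mulop (xi j R) R (xi_abs j R) (dl z : L2 (Site d))) atTop
      (𝓝 (((z j : ℝ) : ℂ) • dl z)) := by
    refine tendsto_const_nhds.congr' ?_
    filter_upwards [xi_eventually j z] with R hR
    ext y
    rw [mulop_apply]
    have e : (((z j : ℝ) : ℂ) • (dl z : L2 (Site d))) y = ((z j : ℝ) : ℂ) * (dl z : L2 (Site d)) y :=
      rfl
    rw [e]
    by_cases hy : y = z
    · rw [hy, hR]
    · have : (dl z : L2 (Site d)) y = 0 := by
        unfold dl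
        exact lp.single_apply_ne 2 z _ hy
      rw [this, mul_zero, mul_zero]
  have h3 := ((W.U t).continuous.tendsto _).comp (h2.add h1)
  have h4 := eval_tendsto h3 x
  have h5 : Tendsto (fun R : ℕ => (mulop (xi j R) R (xi_abs j R) (W.U t (dl z))) x) atTop
      (𝓝 ((x j : ℂ) * (W.U t (dl z)) x)) := by
    refine tendsto_const_nhds.congr' ?_
    filter_upwards [xi_eventually j x] with R hR
    rw [mulop_apply, hR]
    push_cast
    ring
  refine tendsto_nhds_unique h5 (h4.congr fun R => ?_)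
  rw [key R]
  rfl

/-! ### bounded functions of `x / t` -/

/-- clamp to `[-M, M]` -/
noncomputable def cl (M y : ℝ) : ℝ := max (-M) (min M y)

theorem cl_mem (M y : ℝ) (hM : 0 ≤ M) : -M ≤ cl M y ∧ cl M y ≤ M :=
  ⟨le_max_left _ _, max_le (by linarith) (min_le_left _ _)⟩

theorem cl_abs (M y : ℝ) (hM : 0 ≤ M) : |cl M y| ≤ M := abs_le.2 (cl_mem M y hM)

theorem cl_eq (M y : ℝ) (h : |y| ≤ M) : cl M y = y := by
  rw [abs_le] at h
  unfold cl
  rw [min_eq_right h.2, max_eq_right h.1]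

theorem cl_sub (M y : ℝ) (hM : 0 ≤ M) (h : M < |y|) : |cl M y - y| ≤ |y| := by
  unfold cl
  rcases lt_abs.1 h with h1 | h1
  · rw [min_eq_left h1.le, max_eq_right (by linarith), abs_of_nonpos (by linarith),
      abs_of_nonneg (by linarith)]
    linarith
  · rw [min_eq_right (by linarith), max_eq_left (by linarith), abs_of_nonneg (by linarith),
      abs_of_nonpos (by linarith)]
    linarith

/-- the multiplication by a bounded function `m` of the site, in the Heisenberg picture -/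
noncomputable def FF (W : UG (L2 (Site d))) (m : Site d → ℝ) (M : ℝ) (hM : ∀ x, |m x| ≤ M)
    (t : ℝ) (u : L2 (Site d)) : L2 (Site d) := W.U (-t) (mulop m M hM (W.U t u))

theorem U_inv (W : UG (L2 (Site d))) (t : ℝ) (u : L2 (Site d)) : W.U t (W.U (-t) u) = u := by
  rw [← W.add', add_neg_cancel, W.zero']

theorem U_inv' (W : UG (L2 (Site d))) (t : ℝ) (u : L2 (Site d)) : W.U (-t) (W.U t u) = u := by
  rw [← W.add', neg_add_cancel, W.zero']

theorem FF_norm (W : UG (L2 (Site d))) (m : Site d → ℝ) (M : ℝ) (hM : ∀ x, |m x| ≤ M)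
    (t : ℝ) (u : L2 (Site d)) : ‖FF W m M hM t u‖ ≤ M * ‖u‖ := by
  unfold FF
  rw [W.norm']
  have := mulop_norm_le m M hM (W.U t u)
  rwa [W.norm'] at this

theorem FF_sub (W : UG (L2 (Site d))) (m : Site d → ℝ) (M : ℝ) (hM : ∀ x, |m x| ≤ M)
    (t : ℝ) (u w : L2 (Site d)) : FF W m M hM t (u - w) = FF W m M hM t u - FF W m M hM t w := by
  unfold FF
  rw [map_sub, map_sub, map_sub]

theorem FF_add (W : UG (L2 (Site d))) (m : Site d → ℝ) (M : ℝ) (hM : ∀ x, |m x| ≤ M)
    (t : ℝ) (u w : L2 (Site d)) : FF W m M hM t (u + w) = FF W m M hM t u + FF W m M hM t w := by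
  unfold FF
  rw [map_add, map_add, map_add]

theorem FF_smul (W : UG (L2 (Site d))) (m : Site d → ℝ) (M : ℝ) (hM : ∀ x, |m x| ≤ M)
    (t : ℝ) (a : ℂ) (u : L2 (Site d)) : FF W m M hM t (a • u) = a • FF W m M hM t u := by
  unfold FF
  rw [map_smul, map_smul, map_smul]

/-- the clamped coordinate divided by `t` -/
noncomputable def mc (M : ℝ) (j : Fin d) (t : ℝ) (x : Site d) : ℝ := cl M ((x j : ℝ) / t)

theorem mc_abs (M : ℝ) (hM : 0 ≤ M) (j : Fin d) (t : ℝ) (x : Site d) : |mc M j t x| ≤ M :=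
  cl_abs M _ hM

/-- the error of the clamp -/
theorem clamp_err (j : Fin d) (κ M t : ℝ) (hM : 2 * κ ≤ M) (hκ : 0 < κ) (ht : 0 < t)
    (w u : L2 (Site d)) (hw : EE j w ≤ ENNReal.ofReal (Real.exp (κ * t) ^ 2) * EE j u)
    (g : L2 (Site d)) (hg : ∀ x, ((x j : ℝ) : ℂ) * w x = g x) :
    ‖mulop (mc M j t) M (mc_abs M (by linarith) j t) w - ((t : ℂ)⁻¹) • g‖ₑ ^ 2 ≤
      ENNReal.ofReal (2 * (t ^ 2)⁻¹) * EE j u := by
  rw [← enorm_sq]
  have hpt : ∀ x : Site d, ‖(mulop (mc M j t) M (mc_abs M (by linarith) j t) w -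
      ((t : ℂ)⁻¹) • g) x‖ₑ ^ 2 ≤ ENNReal.ofReal (2 * (t ^ 2)⁻¹ * Real.exp (-(M * t))) *
        (ENNReal.ofReal (Real.exp (|(x j : ℝ)|) ^ 2) * ‖w x‖ₑ ^ 2) := by
    intro x
    have e1 : (mulop (mc M j t) M (mc_abs M (by linarith) j t) w - ((t : ℂ)⁻¹) • g) x =
        ((mc M j t x - (x j : ℝ) / t : ℝ) : ℂ) * w x := by
      have : (mulop (mc M j t) M (mc_abs M (by linarith) j t) w - ((t : ℂ)⁻¹) • g) x =
        (mc M j t x : ℂ) * w x - (t : ℂ)⁻¹ * g x := rfl
      rw [this, ← hg x]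
      push_cast
      ring
    rw [e1, enorm_mul, mul_pow]
    rcases le_or_gt (|(x j : ℝ) / t|) M with h | h
    · have : mc M j t x = (x j : ℝ) / t := cl_eq M _ h
      rw [this, sub_self]
      simp
    · have h1 := cl_sub M ((x j : ℝ) / t) (by linarith) h
      rw [← mul_assoc, ← ENNReal.ofReal_mul (by positivity)]
      refine mul_le_mul' ?_ le_rfl
      rw [← ofReal_norm, Complex.norm_real, Real.norm_eq_abs, ← ENNReal.ofReal_pow (abs_nonneg _)]
      refine ENNReal.ofReal_le_ofReal ?_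
      obtain ⟨y, hy⟩ : ∃ y, y = |(x j : ℝ)| := ⟨_, rfl⟩
      have hyt : |(x j : ℝ) / t| = y / t := by rw [abs_div, abs_of_pos ht, hy]
      rw [hyt] at h h1
      rw [← hy]
      have hy0 : 0 ≤ y := by rw [hy]; exact abs_nonneg _
      have hMt : M * t < y := by
        rwa [lt_div_iff₀ ht] at h
      have h2 : |mc M j t x - (x j : ℝ) / t| ^ 2 ≤ (y / t) ^ 2 :=
        pow_le_pow_left₀ (abs_nonneg _) h1 2
      refine h2.trans ?_
      have h3 : y ^ 2 ≤ Real.exp y * 2 := by
        have := Real.quadratic_le_exp_of_nonneg hy0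
        nlinarith
      have h4 : Real.exp (-(M * t)) * Real.exp y ^ 2 = Real.exp (y - M * t) * Real.exp y := by
        rw [pow_two, ← mul_assoc, ← Real.exp_add, ← Real.exp_add, ← Real.exp_add]
        congr 1
        ring
      have h5 : y ^ 2 ≤ Real.exp (-(M * t)) * Real.exp y ^ 2 * 2 := by
        rw [h4]
        have h6 : 1 ≤ Real.exp (y - M * t) := Real.one_le_exp (by linarith)
        have h7 := Real.exp_pos y
        nlinarith
      rw [div_pow, div_eq_mul_inv]
      calc y ^ 2 * (t ^ 2)⁻¹ ≤ (Real.exp (-(M * t)) * Real.exp y ^ 2 * 2) * (t ^ 2)⁻¹ := by gcongr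
        _ = 2 * (t ^ 2)⁻¹ * Real.exp (-(M * t)) * Real.exp y ^ 2 := by ring
  refine (ENNReal.tsum_le_tsum hpt).trans ?_
  rw [ENNReal.tsum_mul_left]
  calc ENNReal.ofReal (2 * (t ^ 2)⁻¹ * Real.exp (-(M * t))) * EE j w
      ≤ ENNReal.ofReal (2 * (t ^ 2)⁻¹ * Real.exp (-(M * t))) *
        (ENNReal.ofReal (Real.exp (κ * t) ^ 2) * EE j u) := mul_le_mul' le_rfl hw
    _ = ENNReal.ofReal (2 * (t ^ 2)⁻¹ * Real.exp (-(M * t)) * Real.exp (κ * t) ^ 2) * EE j u := by
        rw [← mul_assoc, ← ENNReal.ofReal_mul (by positivity)]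
    _ ≤ _ := by
        refine mul_le_mul' (ENNReal.ofReal_le_ofReal ?_) le_rfl
        rw [mul_assoc]
        apply mul_le_of_le_one_right (by positivity)
        rw [← Real.exp_nat_mul, ← Real.exp_add, Real.exp_le_one_iff]
        push_cast
        nlinarith

/-- the mass far away -/
noncomputable def outj (j : Fin d) (R : ℝ) (u : L2 (Site d)) : ℝ≥0∞ :=
  ∑' x : Site d, if R < |(x j : ℝ)| then ‖u x‖ₑ ^ 2 else 0

theorem outj_exp (j : Fin d) (κ M t : ℝ) (hM : κ < M) (hκ : 0 < κ) (ht : 0 ≤ t)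
    (w u : L2 (Site d)) (hw : EE j w ≤ ENNReal.ofReal (Real.exp (κ * t) ^ 2) * EE j u) :
    outj j (M * t) w ≤ ENNReal.ofReal (Real.exp (-(2 * (M - κ) * t))) * EE j u := by
  have hpt : ∀ x : Site d, (if M * t < |(x j : ℝ)| then ‖w x‖ₑ ^ 2 else 0) ≤
      ENNReal.ofReal (Real.exp (-(2 * M * t))) *
        (ENNReal.ofReal (Real.exp (|(x j : ℝ)|) ^ 2) * ‖w x‖ₑ ^ 2) := by
    intro x
    split_ifs with h
    · rw [← mul_assoc, ← ENNReal.ofReal_mul (by positivity)]
      have h1 : (1 : ℝ≥0∞) ≤ ENNReal.ofReal (Real.exp (-(2 * M * t)) *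
          Real.exp (|(x j : ℝ)|) ^ 2) := by
        rw [ENNReal.one_le_ofReal, ← Real.exp_nat_mul, ← Real.exp_add]
        apply Real.one_le_exp
        push_cast
        linarith
      calc ‖w x‖ₑ ^ 2 = 1 * ‖w x‖ₑ ^ 2 := (one_mul _).symm
        _ ≤ _ := mul_le_mul' h1 le_rfl
    · exact bot_le
  unfold outj
  refine (ENNReal.tsum_le_tsum hpt).trans ?_
  rw [ENNReal.tsum_mul_left]
  calc ENNReal.ofReal (Real.exp (-(2 * M * t))) * EE j w
      ≤ ENNReal.ofReal (Real.exp (-(2 * M * t))) *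
        (ENNReal.ofReal (Real.exp (κ * t) ^ 2) * EE j u) := mul_le_mul' le_rfl hw
    _ = ENNReal.ofReal (Real.exp (-(2 * M * t)) * Real.exp (κ * t) ^ 2) * EE j u := by
        rw [← mul_assoc, ← ENNReal.ofReal_mul (by positivity)]
    _ = _ := by
        congr 2
        rw [← Real.exp_nat_mul, ← Real.exp_add]
        congr 1
        push_cast
        ring

theorem outj_add (j : Fin d) (R : ℝ) (u w : L2 (Site d)) :
    outj j R u ≤ 2 * outj j R w + 2 * ‖u - w‖ₑ ^ 2 := by
  rw [← MOM.enorm_sq (u - w)]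
  unfold outj
  rw [← ENNReal.tsum_mul_left, ← ENNReal.tsum_mul_left, ← ENNReal.tsum_add]
  refine ENNReal.tsum_le_tsum fun x => ?_
  split_ifs with h
  · have e : u x = w x + (u - w) x := by
      have : (u - w) x = u x - w x := rfl
      rw [this]; ring
    conv_lhs => rw [e]
    exact esq_le _ _
  · exact bot_le

end Pool.Agent.U619.BS
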