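import Pool.Agent.U619.BS.SC

/-! # The limit law of `x(t)/t` -/

set_option autoImplicit false

open MeasureTheory Filter Topology
open scoped BigOperators ENNReal NNReal InnerProductSpace ComplexConjugate CompactlySupported

namespace Pool.Agent.U619.BS

open Pool.Agent.H5R2.NB Pool.Agent.H5R2.NB.MOM Pool.Agent.U619.NB

variable {d : ℕ}

/-- pointwise limits of positive functionals on a compact space are measures -/
theorem riesz_lim {X : Type} [TopologicalSpace X] [T2Space X] [CompactSpace X]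
    [MeasurableSpace X] [BorelSpace X] (φ : C(X, ℝ) → ℝ → ℝ)
    (hadd : ∀ f g t, φ (f + g) t = φ f t + φ g t) (hsmul : ∀ (r : ℝ) f t, φ (r • f) t = r * φ f t)
    (hmono : ∀ f g t, (∀ x, f x ≤ g x) → φ f t ≤ φ g t)
    (hconv : ∀ f, ∃ l, Tendsto (φ f) atTop (𝓝 l)) :
    ∃ m : Measure X, IsFiniteMeasure m ∧
      ∀ f : C(X, ℝ), Tendsto (φ f) atTop (𝓝 (∫ x, f x ∂m)) := by
  choose l hl using hconv
  let Λ : C_c(X, ℝ) →ₚ[ℝ] ℝ :=
  { toFun := fun g => l g.toContinuousMap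
    map_add' g g' := by
      have h1 := (hl g.toContinuousMap).add (hl g'.toContinuousMap)
      exact tendsto_nhds_unique (hl (g + g').toContinuousMap)
        (h1.congr fun t => (hadd g.toContinuousMap g'.toContinuousMap t).symm)
    map_smul' r g := by
      have h1 := (hl g.toContinuousMap).const_mul r
      exact tendsto_nhds_unique (hl (r • g).toContinuousMap)
        (h1.congr fun t => (hsmul r g.toContinuousMap t).symm)
    monotone' g g' hgg' := by
      exact le_of_tendsto_of_tendsto' (hl g.toContinuousMap) (hl g'.toContinuousMap)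
        fun t => hmono g.toContinuousMap g'.toContinuousMap t hgg' }
  let μ := RealRMK.rieszMeasure Λ
  have hfin : μ Set.univ < ∞ := by
    let o : C_c(X, ℝ) :=
    { toFun := 1
      hasCompactSupport' := HasCompactSupport.of_compactSpace 1 }
    have : μ Set.univ ≤ ENNReal.ofReal (Λ o) := RealRMK.rieszMeasure_le_of_eq_one Λ
      (fun x ↦ by simp [o]) isCompact_univ (fun x ↦ by simp [o])
    exact this.trans_lt ENNReal.ofReal_lt_top
  refine ⟨μ, ⟨hfin⟩, fun f => ?_⟩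
  let f' : C_c(X, ℝ) :=
  { toFun := f
    hasCompactSupport' := HasCompactSupport.of_compactSpace _ }
  have h1 : ∫ x, f' x ∂μ = Λ f' := RealRMK.integral_rieszMeasure Λ f'
  have h2 : ∫ x, f x ∂μ = l f := h1
  rw [h2]
  exact hl f

/-- unitarity -/
theorem inner_U (W : UG (L2 (Site d))) (t : ℝ) (u w : L2 (Site d)) :
    ⟪W.U t u, W.U t w⟫_ℂ = ⟪u, w⟫_ℂ := by
  let T : L2 (Site d) →ₗᵢ[ℂ] L2 (Site d) := ⟨(W.U t : L2 (Site d) →ₗ[ℂ] L2 (Site d)), W.norm' t⟩
  exact T.inner_map_map u w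

/-- mean value of a bounded function of the position -/
theorem inner_FF (W : UG (L2 (Site d))) (m : Site d → ℝ) (M : ℝ) (hM : ∀ x, |m x| ≤ M) (t : ℝ)
    (u : L2 (Site d)) :
    RCLike.re ⟪u, FF W m M hM t u⟫_ℂ = ∑' x, m x * ‖(W.U t u) x‖ ^ 2 := by
  have h1 : ⟪u, FF W m M hM t u⟫_ℂ = ⟪W.U t u, mulop m M hM (W.U t u)⟫_ℂ := by
    rw [← inner_U W t u]
    unfold FF
    rw [U_inv]
  rw [h1]
  have h2 := lp.hasSum_inner (𝕜 := ℂ) (W.U t u) (mulop m M hM (W.U t u))
  have h3 := (RCLike.hasSum_re ℂ h2).tsum_eq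
  rw [← h3]
  refine tsum_congr fun x => ?_
  rw [mulop_apply]
  obtain ⟨a, ha⟩ : ∃ a : ℂ, a = (W.U t u) x := ⟨_, rfl⟩
  rw [← ha]
  have h4 : ⟪a, (m x : ℂ) * a⟫_ℂ = (m x : ℂ) * ((‖a‖ ^ 2 : ℝ) : ℂ) := by
    rw [RCLike.inner_apply, mul_assoc, Complex.mul_conj, Complex.normSq_eq_norm_sq]
  rw [h4, ← Complex.ofReal_mul]
  rfl

variable (W : UG (L2 (Site d))) (M : ℝ) (hM : 0 ≤ M)

theorem summ (m : Site d → ℝ) (C : ℝ) (hC : ∀ x, |m x| ≤ C) (w : L2 (Site d)) :
    Summable fun x => m x * ‖w x‖ ^ 2 := by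
  have h := (MOM.hasSum_sq w).summable.mul_left C
  refine Summable.of_norm_bounded h fun x => ?_
  rw [norm_mul, Real.norm_eq_abs, norm_pow, norm_norm]
  gcongr
  exact hC x

/-- the mean value of `f (x / t)` (clamped) -/
noncomputable def mean (u : L2 (Site d)) (f : C(KK d M, ℝ)) (t : ℝ) : ℝ :=
  ∑' x, f (pt M hM t x) * ‖(W.U t u) x‖ ^ 2

theorem abs_le_norm (f : C(KK d M, ℝ)) (y : KK d M) : |f y| ≤ ‖f‖ := by
  rw [← Real.norm_eq_abs]; exact ContinuousMap.norm_coe_le_norm f _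

theorem mean_eq (u : L2 (Site d)) (f : C(KK d M, ℝ)) (t : ℝ) :
    mean W M hM u f t = RCLike.re ⟪u, GG W M hM f t u⟫_ℂ :=
  (inner_FF W _ _ _ t u).symm

theorem exists_law (u : L2 (Site d))
    (hconv : ∀ f : C(KK d M, ℝ), ∃ y, Tendsto (fun t => GG W M hM f t u) atTop (𝓝 y)) :
    ∃ m : Measure (KK d M), IsFiniteMeasure m ∧
      ∀ f : C(KK d M, ℝ), Tendsto (mean W M hM u f) atTop (𝓝 (∫ x, f x ∂m)) := by
  refine riesz_lim (mean W M hM u) ?_ ?_ ?_ ?_
  · intro f g t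
    unfold mean
    rw [← (summ _ _ (fun x => abs_le_norm M f _) _).tsum_add
      (summ _ _ (fun x => abs_le_norm M g _) _)]
    refine tsum_congr fun x => ?_
    rw [ContinuousMap.add_apply]
    ring
  · intro r f t
    unfold mean
    rw [← tsum_mul_left]
    refine tsum_congr fun x => ?_
    rw [ContinuousMap.smul_apply, smul_eq_mul]
    ring
  · intro f g t hfg
    unfold mean
    refine (summ _ _ (fun x => abs_le_norm M f _) _).tsum_le_tsum (fun x => ?_)
      (summ _ _ (fun x => abs_le_norm M g _) _)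
    exact mul_le_mul_of_nonneg_right (hfg _) (by positivity)
  · intro f
    obtain ⟨y, hy⟩ := hconv f
    refine ⟨RCLike.re ⟪u, y⟫_ℂ, ?_⟩
    have h1 : Tendsto (fun t => ⟪u, GG W M hM f t u⟫_ℂ) atTop (𝓝 ⟪u, y⟫_ℂ) :=
      (continuous_const.inner continuous_id).continuousAt.tendsto.comp hy
    have h2 := (RCLike.continuous_re.tendsto _).comp h1
    refine h2.congr fun t => ?_
    rw [mean_eq]
    rfl

/-! ### the mass far away -/

theorem EE_add (j : Fin d) (u w : L2 (Site d)) : EE j (u + w) ≤ 2 * EE j u + 2 * EE j w := by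
  unfold EE
  rw [← ENNReal.tsum_mul_left, ← ENNReal.tsum_mul_left, ← ENNReal.tsum_add]
  refine ENNReal.tsum_le_tsum fun x => ?_
  have h : (u + w) x = u x + w x := rfl
  rw [h]
  calc ENNReal.ofReal (Real.exp (|(x j : ℝ)|) ^ 2) * ‖u x + w x‖ₑ ^ 2
      ≤ ENNReal.ofReal (Real.exp (|(x j : ℝ)|) ^ 2) * (2 * ‖u x‖ₑ ^ 2 + 2 * ‖w x‖ₑ ^ 2) :=
        mul_le_mul' le_rfl (esq_le _ _)
    _ = _ := by ring

theorem EE_smul (j : Fin d) (a : ℂ) (u : L2 (Site d)) : EE j (a • u) = ‖a‖ₑ ^ 2 * EE j u := by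
  unfold EE
  rw [← ENNReal.tsum_mul_left]
  refine tsum_congr fun x => ?_
  have h : (a • u) x = a * u x := rfl
  rw [h, enorm_mul, mul_pow]
  ring

theorem exists_nearE (u : L2 (Site d)) (δ : ℝ) (hδ : 0 < δ) :
    ∃ w : L2 (Site d), (∀ j, EE j w ≠ ∞) ∧ ‖u - w‖ < δ := by
  have hd := LIMB.dl_dense d u
  rw [Metric.mem_closure_iff] at hd
  obtain ⟨w, hw, hw2⟩ := hd δ hδ
  refine ⟨w, ?_, by rwa [dist_eq_norm] at hw2⟩
  refine Submodule.span_induction (p := fun w _ => ∀ j, EE j w ≠ ∞) ?_ ?_ ?_ ?_ hw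
  · rintro _ ⟨z, rfl⟩ j
    exact coord_dl.EE_dl' j z
  · intro j
    have h : EE j (0 : L2 (Site d)) = 0 := by
      unfold EE
      simp
    rw [h]
    exact ENNReal.zero_ne_top
  · intro x y _ _ hx hy j
    refine ne_top_of_le_ne_top ?_ (EE_add j x y)
    exact ENNReal.add_ne_top.2 ⟨ENNReal.mul_ne_top (by norm_num) (hx j),
      ENNReal.mul_ne_top (by norm_num) (hy j)⟩
  · intro a x _ hx j
    rw [EE_smul]
    exact ENNReal.mul_ne_top (ENNReal.pow_ne_top enorm_ne_top) (hx j)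

theorem outj_tendsto (j : Fin d) (κ : ℝ) (hκ : 0 < κ) (hκM : κ < M)
    (hexp : ∀ (u : L2 (Site d)) (t : ℝ), 0 ≤ t →
      EE j (W.U t u) ≤ ENNReal.ofReal (Real.exp (κ * t) ^ 2) * EE j u) (u : L2 (Site d)) :
    Tendsto (fun t : ℝ => outj j (M * t) (W.U t u)) atTop (𝓝 0) := by
  rw [ENNReal.tendsto_nhds_zero]
  intro δ hδ
  obtain ⟨η, hη, hη2⟩ : ∃ η : ℝ, 0 < η ∧ 2 * ENNReal.ofReal (η ^ 2) ≤ δ / 2 := by
    have h1 : Tendsto (fun η : ℝ => 2 * ENNReal.ofReal (η ^ 2)) (𝓝[>] 0) (𝓝 0) := by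
      have hc : Continuous fun η : ℝ => ENNReal.ofReal (η ^ 2) :=
        ENNReal.continuous_ofReal.comp (continuous_pow 2)
      have h2 := (hc.tendsto 0).mono_left (nhdsWithin_le_nhds (s := Set.Ioi (0 : ℝ)))
      have h3 := ENNReal.Tendsto.const_mul (a := 2) h2 (Or.inr (by norm_num))
      simpa using h3
    have h2 : 0 < δ / 2 := ENNReal.half_pos hδ.ne'
    obtain ⟨η, h3, h4⟩ := ((ENNReal.tendsto_nhds_zero.1 h1 (δ / 2) h2).and
      self_mem_nhdsWithin).exists
    exact ⟨η, h4, h3⟩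
  obtain ⟨w, hw, hwu⟩ := exists_nearE u η hη
  have h2 : Tendsto (fun t : ℝ => 2 * (ENNReal.ofReal (Real.exp (-(2 * (M - κ) * t))) *
      EE j w)) atTop (𝓝 0) := by
    have h3 : Tendsto (fun t : ℝ => ENNReal.ofReal (Real.exp (-(2 * (M - κ) * t)))) atTop
        (𝓝 0) := by
      have h4 : Tendsto (fun t : ℝ => Real.exp (-(2 * (M - κ) * t))) atTop (𝓝 0) := by
        refine Real.tendsto_exp_neg_atTop_nhds_zero.comp ?_
        exact tendsto_id.const_mul_atTop (by linarith : 0 < 2 * (M - κ))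
      have := (ENNReal.continuous_ofReal.tendsto 0).comp h4
      simpa [Function.comp_def] using this
    have h5 := ENNReal.Tendsto.mul_const (b := EE j w) h3 (Or.inr (hw j))
    have h6 := ENNReal.Tendsto.const_mul (a := 2) h5 (Or.inr (by norm_num))
    simpa using h6
  have h3 : 0 < δ / 2 := ENNReal.half_pos hδ.ne'
  filter_upwards [ENNReal.tendsto_nhds_zero.1 h2 (δ / 2) h3, eventually_gt_atTop (0 : ℝ)]
    with t ht ht0
  have h4 := outj_exp j κ M t hκM hκ ht0.le (W.U t w) w (hexp w t ht0.le)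
  have h5 : ‖W.U t u - W.U t w‖ₑ ^ 2 ≤ ENNReal.ofReal (η ^ 2) := by
    rw [← map_sub, ← ofReal_norm, W.norm', ← ENNReal.ofReal_pow (norm_nonneg _)]
    exact ENNReal.ofReal_le_ofReal (pow_le_pow_left₀ (norm_nonneg _) hwu.le 2)
  calc outj j (M * t) (W.U t u)
      ≤ 2 * outj j (M * t) (W.U t w) + 2 * ‖W.U t u - W.U t w‖ₑ ^ 2 := outj_add _ _ _ _
    _ ≤ 2 * (ENNReal.ofReal (Real.exp (-(2 * (M - κ) * t))) * EE j w) +
        2 * ENNReal.ofReal (η ^ 2) := by gcongr
    _ ≤ δ / 2 + δ / 2 := add_le_add ht hη2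
    _ = δ := ENNReal.add_halves δ

/-- removing the clamp -/
theorem remove_clamp (κ : ℝ) (hκ : 0 < κ) (hκM : κ < M)
    (hexp : ∀ (j : Fin d) (u : L2 (Site d)) (t : ℝ), 0 ≤ t →
      EE j (W.U t u) ≤ ENNReal.ofReal (Real.exp (κ * t) ^ 2) * EE j u) (u : L2 (Site d))
    (f : (Fin d → ℝ) → ℝ) (C : ℝ) (hC : ∀ y, |f y| ≤ C) :
    Tendsto (fun t : ℝ => ∑' x, f (fun j => (x j : ℝ) / t) * ‖(W.U t u) x‖ ^ 2 -
      ∑' x, f (pt M hM t x).1 * ‖(W.U t u) x‖ ^ 2) atTop (𝓝 0) := by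
  have hC0 : 0 ≤ C := (abs_nonneg _).trans (hC 0)
  have hout : Tendsto (fun t : ℝ => 2 * C * ∑ j : Fin d, (outj j (M * t) (W.U t u)).toReal)
      atTop (𝓝 0) := by
    have h1 : ∀ j : Fin d, Tendsto (fun t : ℝ => (outj j (M * t) (W.U t u)).toReal) atTop
        (𝓝 0) := by
      intro j
      have := (ENNReal.tendsto_toReal (by simp : (0 : ℝ≥0∞) ≠ ∞)).comp
        (outj_tendsto W M j κ hκ hκM (hexp j) u)
      simpa [Function.comp_def] using this
    have h2 := (tendsto_finsetSum (Finset.univ : Finset (Fin d)) fun j _ => h1 j).const_mul (2 * C)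
    simpa using h2
  refine squeeze_zero_norm' ?_ hout
  filter_upwards [eventually_gt_atTop (0 : ℝ)] with t ht
  have s1 := summ (fun x : Site d => f (fun j => (x j : ℝ) / t)) C (fun x => hC _) (W.U t u)
  have s2 := summ (fun x : Site d => f (pt M hM t x).1) C (fun x => hC _) (W.U t u)
  rw [← s1.tsum_sub s2]
  have hout2 : ∀ j : Fin d, (outj j (M * t) (W.U t u)).toReal =
      ∑' x : Site d, if M * t < |(x j : ℝ)| then ‖(W.U t u) x‖ ^ 2 else 0 := by
    intro j
    unfold outj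
    rw [ENNReal.tsum_toReal_eq (fun x => by
      split_ifs
      · exact ENNReal.pow_ne_top enorm_ne_top
      · exact ENNReal.zero_ne_top)]
    refine tsum_congr fun x => ?_
    split_ifs
    · rw [ENNReal.toReal_pow, toReal_enorm]
    · rfl
  have s3 : ∀ j : Fin d, Summable fun x : Site d =>
      (if M * t < |(x j : ℝ)| then ‖(W.U t u) x‖ ^ 2 else 0) := by
    intro j
    refine Summable.of_nonneg_of_le (fun x => by split_ifs <;> positivity) (fun x => ?_)
      (MOM.hasSum_sq (W.U t u)).summable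
    split_ifs
    · exact le_rfl
    · positivity
  simp only [hout2]
  rw [← Summable.tsum_finsetSum (fun j _ => s3 j), ← tsum_mul_left]
  have s4 : Summable fun x : Site d => 2 * C * ∑ j : Fin d,
      (if M * t < |(x j : ℝ)| then ‖(W.U t u) x‖ ^ 2 else 0) :=
    (summable_sum fun j _ => s3 j).mul_left _
  refine tsum_of_norm_bounded s4.hasSum fun x => ?_
  rw [← sub_mul, norm_mul, Real.norm_eq_abs, norm_pow, norm_norm]
  by_cases hx : ∃ j : Fin d, M * t < |(x j : ℝ)|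
  · obtain ⟨j, hj⟩ := hx
    have h1 : |f (fun j => (x j : ℝ) / t) - f (pt M hM t x).1| ≤ 2 * C := by
      have h2 := abs_sub (f fun j => (x j : ℝ) / t) (f (pt M hM t x).1)
      have h3 := hC (fun j => (x j : ℝ) / t)
      have h4 := hC (pt M hM t x).1
      linarith
    have h2 : ‖(W.U t u) x‖ ^ 2 ≤ ∑ j : Fin d,
        (if M * t < |(x j : ℝ)| then ‖(W.U t u) x‖ ^ 2 else 0) := by
      have h3 := Finset.single_le_sum (f := fun j : Fin d =>
        (if M * t < |(x j : ℝ)| then ‖(W.U t u) x‖ ^ 2 else 0))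
        (fun j _ => by split_ifs <;> positivity) (Finset.mem_univ j)
      simp only [if_pos hj] at h3
      exact h3
    exact mul_le_mul h1 h2 (by positivity) (by positivity)
  · push Not at hx
    have h1 : (pt M hM t x).1 = fun j => (x j : ℝ) / t := by
      funext j
      show mc M j t x = _
      refine cl_eq M _ ?_
      rw [abs_div, abs_of_pos ht, div_le_iff₀ ht]
      exact hx j
    rw [h1, sub_self, abs_zero, zero_mul]
    have : 0 ≤ ∑ j : Fin d, (if M * t < |(x j : ℝ)| then ‖(W.U t u) x‖ ^ 2 else 0) :=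
      Finset.sum_nonneg fun j _ => by split_ifs <;> positivity
    positivity

end Pool.Agent.U619.BS
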