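import Pool.Agent.U619.BS.Heis

/-! # Strong convergence of all bounded continuous functions of `x(t)/t` -/

set_option autoImplicit false

open MeasureTheory Filter Topology
open scoped BigOperators ENNReal NNReal InnerProductSpace ComplexConjugate

namespace Pool.Agent.U619.BS

open Pool.Agent.H5R2.NB Pool.Agent.H5R2.NB.MOM Pool.Agent.U619.NB

variable {d : ℕ}

theorem FF_congr (W : UG (L2 (Site d))) (m m' : Site d → ℝ) (M M' : ℝ) (hM : ∀ x, |m x| ≤ M)
    (hM' : ∀ x, |m' x| ≤ M') (h : ∀ x, m x = m' x) (t : ℝ) (u : L2 (Site d)) :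
    FF W m M hM t u = FF W m' M' hM' t u := by
  unfold FF
  congr 1
  ext x
  rw [mulop_apply, mulop_apply, h x]

/-- from the vectors `δ_z` to all vectors -/
theorem dense_tendsto (F : ℝ → L2 (Site d) → L2 (Site d)) (B : L2 (Site d) →L[ℂ] L2 (Site d))
    (M : ℝ) (hM : 0 ≤ M) (hadd : ∀ t u w, F t (u + w) = F t u + F t w)
    (hsmul : ∀ t (a : ℂ) u, F t (a • u) = a • F t u)
    (hn : ∀ t u, ‖F t u‖ ≤ M * ‖u‖)
    (h : ∀ z, Tendsto (fun t => F t (dl z)) atTop (𝓝 (B (dl z)))) (u : L2 (Site d)) :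
    Tendsto (fun t => F t u) atTop (𝓝 (B u)) := by
  have hspan : ∀ w ∈ Submodule.span ℂ (Set.range (dl (d := d))),
      Tendsto (fun t => F t w) atTop (𝓝 (B w)) := by
    intro w hw
    refine Submodule.span_induction (p := fun w _ => Tendsto (fun t => F t w) atTop (𝓝 (B w)))
      ?_ ?_ ?_ ?_ hw
    · rintro _ ⟨z, rfl⟩
      exact h z
    · have : ∀ t, F t 0 = 0 := by
        intro t
        have := hsmul t 0 0
        simpa using this
      simp [this]
    · intro x y _ _ hx hy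
      rw [map_add]
      exact (hx.add hy).congr fun t => (hadd t x y).symm
    · intro a x _ hx
      rw [map_smul]
      exact (hx.const_smul a).congr fun t => (hsmul t a x).symm
  rw [Metric.tendsto_atTop]
  intro ε hε
  have hd := LIMB.dl_dense d u
  rw [Metric.mem_closure_iff] at hd
  have hK : 0 < M + ‖B‖ + 1 := by positivity
  obtain ⟨w, hw, hw2⟩ := hd (ε / 2 / (M + ‖B‖ + 1)) (by positivity)
  obtain ⟨T, hT⟩ := (Metric.tendsto_atTop.1 (hspan w hw)) (ε / 2) (by positivity)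
  refine ⟨T, fun t ht => ?_⟩
  have h1 := hT t ht
  rw [dist_eq_norm] at h1 hw2 ⊢
  have e : F t u - B u = F t (u - w) + (F t w - B w) - B (u - w) := by
    have : F t u = F t (u - w) + F t w := by rw [← hadd, sub_add_cancel]
    rw [this, map_sub]
    abel
  rw [e]
  have h2 := hn t (u - w)
  have h3 := B.le_opNorm (u - w)
  have h4 : (M + ‖B‖ + 1) * ‖u - w‖ < ε / 2 := by
    rw [lt_div_iff₀ hK] at hw2
    linarith
  have h5 := norm_nonneg (u - w)
  calc ‖F t (u - w) + (F t w - B w) - B (u - w)‖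
      ≤ ‖F t (u - w) + (F t w - B w)‖ + ‖B (u - w)‖ := norm_sub_le _ _
    _ ≤ ‖F t (u - w)‖ + ‖F t w - B w‖ + ‖B (u - w)‖ := by
        gcongr
        exact norm_add_le _ _
    _ < ε := by nlinarith

/-- the coordinates -/
theorem coord_dl (c : ℝ) (V : Site d → ℝ) (W : UG (L2 (Site d))) (hW : IsGrp c V W) (j : Fin d)
    (κ M : ℝ) (hκ : 0 < κ) (hM : 2 * κ ≤ M)
    (hexp : ∀ (u : L2 (Site d)) (t : ℝ), 0 ≤ t →
      EE j (W.U t u) ≤ ENNReal.ofReal (Real.exp (κ * t) ^ 2) * EE j u)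
    (v : L2 (Site d) →L[ℂ] L2 (Site d)) (hv : IsVel c j v) (z : Site d) (y : L2 (Site d))
    (hB : Tendsto (fun T : ℝ => ((T : ℂ)⁻¹) • ∫ s in (0 : ℝ)..T, W.U (-s) (v (W.U s (dl z))))
      atTop (𝓝 y)) :
    Tendsto (fun t : ℝ => FF W (mc M j t) M (mc_abs M (by linarith) j t) t (dl z)) atTop
      (𝓝 y) := by
  have h1 : Tendsto (fun t : ℝ => ((t : ℂ)⁻¹) • eta W j v z t) atTop (𝓝 y) := by
    have h2 : Tendsto (fun t : ℝ => ((t : ℂ)⁻¹) • (((z j : ℝ) : ℂ) • (dl z : L2 (Site d)))) atTop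
        (𝓝 0) := by
      have h3 : Tendsto (fun t : ℝ => ((t : ℂ)⁻¹)) atTop (𝓝 0) := by
        have := (Complex.continuous_ofReal.tendsto 0).comp tendsto_inv_atTop_zero
        simpa [Function.comp_def] using this
      have := h3.smul_const (((z j : ℝ) : ℂ) • (dl z : L2 (Site d)))
      simpa using this
    have h4 := h2.add hB
    rw [zero_add] at h4
    refine h4.congr fun t => ?_
    unfold eta
    rw [smul_add]
  have h2 : Tendsto (fun t : ℝ => FF W (mc M j t) M (mc_abs M (by linarith) j t) t (dl z) -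
      ((t : ℂ)⁻¹) • eta W j v z t) atTop (𝓝 0) := by
    rw [tendsto_zero_iff_norm_tendsto_zero]
    have h3 : Tendsto (fun t : ℝ => ‖FF W (mc M j t) M (mc_abs M (by linarith) j t) t (dl z) -
      ((t : ℂ)⁻¹) • eta W j v z t‖ₑ ^ 2) atTop (𝓝 0) := by
      have h4 : Tendsto (fun t : ℝ => ENNReal.ofReal (2 * (t ^ 2)⁻¹) * EE j (dl z)) atTop
          (𝓝 0) := by
        have h5 : Tendsto (fun t : ℝ => ENNReal.ofReal (2 * (t ^ 2)⁻¹)) atTop (𝓝 0) := by
          have h6 : Tendsto (fun t : ℝ => 2 * (t ^ 2)⁻¹) atTop (𝓝 0) := by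
            have := (tendsto_inv_atTop_zero.comp
              (tendsto_pow_atTop (α := ℝ) (n := 2) two_ne_zero)).const_mul 2
            simpa [Function.comp_def] using this
          have := (ENNReal.continuous_ofReal.tendsto 0).comp h6
          simpa [Function.comp_def] using this
        have := ENNReal.Tendsto.mul_const (b := EE j (dl z)) h5 (Or.inr (EE_dl' j z))
        simpa using this
      refine tendsto_of_tendsto_of_tendsto_of_le_of_le' tendsto_const_nhds h4
        (Eventually.of_forall fun t => bot_le) ?_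
      filter_upwards [eventually_gt_atTop (0 : ℝ)] with t ht
      have h5 := clamp_err j κ M t hM hκ ht (W.U t (dl z)) (dl z) (hexp (dl z) t ht.le)
        (W.U t (eta W j v z t)) (fun x => by
          have := heis c V W hW j v hv z t x
          rw [← this]
          push_cast
          ring)
      have h6 : ‖FF W (mc M j t) M (mc_abs M (by linarith) j t) t (dl z) -
          ((t : ℂ)⁻¹) • eta W j v z t‖ = ‖mulop (mc M j t) M (mc_abs M (by linarith) j t)
          (W.U t (dl z)) - ((t : ℂ)⁻¹) • W.U t (eta W j v z t)‖ := by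
        rw [← W.norm' t]
        congr 1
        unfold FF
        rw [map_sub, U_inv, map_smul]
      rw [← ofReal_norm, h6, ofReal_norm]
      exact h5
    have h4 : Tendsto (fun t : ℝ => ‖FF W (mc M j t) M (mc_abs M (by linarith) j t) t (dl z) -
      ((t : ℂ)⁻¹) • eta W j v z t‖ ^ 2) atTop (𝓝 0) := by
      have h5 := (ENNReal.tendsto_toReal (by simp : (0 : ℝ≥0∞) ≠ ∞)).comp h3
      rw [ENNReal.toReal_zero] at h5
      refine h5.congr fun t => ?_
      simp only [Function.comp]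
      rw [ENNReal.toReal_pow, toReal_enorm]
    have h5 := h4.sqrt
    rw [Real.sqrt_zero] at h5
    refine h5.congr fun t => ?_
    rw [Real.sqrt_sq (norm_nonneg _)]
  have h3 := h2.add h1
  rw [zero_add] at h3
  refine h3.congr fun t => ?_
  rw [sub_add_cancel]
where
  EE_dl' (j : Fin d) (z : Site d) : EE j (dl z) ≠ ∞ := by
    classical
    have h : EE j (dl z) = ENNReal.ofReal (Real.exp (|(z j : ℝ)|) ^ 2) *
        ‖(dl z : L2 (Site d)) z‖ₑ ^ 2 := by
      unfold EE
      rw [tsum_eq_single z]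
      intro x hx
      have : (dl z : L2 (Site d)) x = 0 := by
        unfold dl
        rw [lp.coeFn_single]
        exact Pi.single_eq_of_ne hx _
      rw [this]
      simp
    rw [h]
    exact ENNReal.mul_ne_top ENNReal.ofReal_ne_top (ENNReal.pow_ne_top enorm_ne_top)

/-- the cube -/
def KK (d : ℕ) (M : ℝ) : Set (Fin d → ℝ) := Set.univ.pi fun _ => Set.Icc (-M) M

instance (d : ℕ) (M : ℝ) : CompactSpace (KK d M) :=
  isCompact_iff_compactSpace.1 (isCompact_univ_pi fun _ => isCompact_Icc)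

/-- the clamped rescaled position -/
noncomputable def pt (M : ℝ) (hM : 0 ≤ M) (t : ℝ) (x : Site d) : KK d M :=
  ⟨fun j => mc M j t x, fun j _ => cl_mem M _ hM⟩

/-- the function `f` of the clamped rescaled position, in the Heisenberg picture -/
noncomputable def GG (W : UG (L2 (Site d))) (M : ℝ) (hM : 0 ≤ M) (f : C(KK d M, ℝ)) (t : ℝ)
    (u : L2 (Site d)) : L2 (Site d) :=
  FF W (fun x => f (pt M hM t x)) ‖f‖ (fun x => by
    rw [← Real.norm_eq_abs]; exact ContinuousMap.norm_coe_le_norm f _) t u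

variable (W : UG (L2 (Site d))) (M : ℝ) (hM : 0 ≤ M)

theorem GG_norm (f : C(KK d M, ℝ)) (t : ℝ) (u : L2 (Site d)) :
    ‖GG W M hM f t u‖ ≤ ‖f‖ * ‖u‖ := FF_norm W _ _ _ t u

theorem GG_addv (f : C(KK d M, ℝ)) (t : ℝ) (u w : L2 (Site d)) :
    GG W M hM f t (u + w) = GG W M hM f t u + GG W M hM f t w := FF_add W _ _ _ t u w

theorem GG_subv (f : C(KK d M, ℝ)) (t : ℝ) (u w : L2 (Site d)) :
    GG W M hM f t (u - w) = GG W M hM f t u - GG W M hM f t w := FF_sub W _ _ _ t u w

theorem GG_smulv (f : C(KK d M, ℝ)) (t : ℝ) (a : ℂ) (u : L2 (Site d)) :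
    GG W M hM f t (a • u) = a • GG W M hM f t u := FF_smul W _ _ _ t a u

theorem GG_mul (f g : C(KK d M, ℝ)) (t : ℝ) (u : L2 (Site d)) :
    GG W M hM (f * g) t u = GG W M hM f t (GG W M hM g t u) := by
  unfold GG FF
  rw [U_inv]
  congr 1
  ext x
  rw [mulop_apply, mulop_apply, mulop_apply, ContinuousMap.mul_apply]
  push_cast
  ring

theorem GG_add (f g : C(KK d M, ℝ)) (t : ℝ) (u : L2 (Site d)) :
    GG W M hM (f + g) t u = GG W M hM f t u + GG W M hM g t u := by
  unfold GG FF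
  rw [← map_add]
  congr 1
  ext x
  have e : ∀ a b : L2 (Site d), (a + b) x = a x + b x := fun a b => rfl
  rw [e, mulop_apply, mulop_apply, mulop_apply, ContinuousMap.add_apply]
  push_cast
  ring

theorem GG_sub (f g : C(KK d M, ℝ)) (t : ℝ) (u : L2 (Site d)) :
    GG W M hM (f - g) t u = GG W M hM f t u - GG W M hM g t u := by
  unfold GG FF
  rw [← map_sub]
  congr 1
  ext x
  have e : ∀ a b : L2 (Site d), (a - b) x = a x - b x := fun a b => rfl
  rw [e, mulop_apply, mulop_apply, mulop_apply, ContinuousMap.sub_apply]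
  push_cast
  ring

theorem GG_const (r : ℝ) (t : ℝ) (u : L2 (Site d)) :
    GG W M hM (algebraMap ℝ C(KK d M, ℝ) r) t u = (r : ℂ) • u := by
  unfold GG FF
  have : mulop (fun x => (algebraMap ℝ C(KK d M, ℝ) r) (pt M hM t x))
      ‖algebraMap ℝ C(KK d M, ℝ) r‖ (fun x => by
        rw [← Real.norm_eq_abs]; exact ContinuousMap.norm_coe_le_norm _ _) (W.U t u) =
      (r : ℂ) • W.U t u := by
    ext x
    rw [mulop_apply]
    rfl
  rw [this, map_smul, U_inv']

/-- the algebra of the functions for which there is strong convergence -/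
noncomputable def SS : Subalgebra ℝ C(KK d M, ℝ) where
  carrier := {f | ∀ u, ∃ y, Tendsto (fun t => GG W M hM f t u) atTop (𝓝 y)}
  mul_mem' := by
    intro f g hf hg u
    obtain ⟨y, hy⟩ := hg u
    obtain ⟨z, hz⟩ := hf y
    refine ⟨z, ?_⟩
    have h1 : Tendsto (fun t => GG W M hM f t (GG W M hM g t u - y)) atTop (𝓝 0) := by
      refine squeeze_zero_norm (fun t => GG_norm W M hM f t _) ?_
      have := (tendsto_iff_norm_sub_tendsto_zero.1 hy).const_mul ‖f‖
      simpa using this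
    have h2 := h1.add hz
    rw [zero_add] at h2
    refine h2.congr fun t => ?_
    rw [GG_mul, GG_subv, sub_add_cancel]
  add_mem' := by
    intro f g hf hg u
    obtain ⟨y, hy⟩ := hf u
    obtain ⟨z, hz⟩ := hg u
    exact ⟨y + z, (hy.add hz).congr fun t => (GG_add W M hM f g t u).symm⟩
  algebraMap_mem' := by
    intro r u
    exact ⟨(r : ℂ) • u, tendsto_const_nhds.congr fun t => (GG_const W M hM r t u).symm⟩

/-- the coordinate functions -/
noncomputable def cf (M : ℝ) (j : Fin d) : C(KK d M, ℝ) :=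
  ⟨fun y => y.1 j, (continuous_apply j).comp continuous_subtype_val⟩

theorem SS_sep (h : ∀ j, cf M j ∈ SS W M hM) : (SS W M hM).SeparatesPoints := by
  intro x y hxy
  obtain ⟨j, hj⟩ : ∃ j, x.1 j ≠ y.1 j := by
    by_contra hcon
    push Not at hcon
    exact hxy (Subtype.ext (funext hcon))
  exact ⟨cf M j, ⟨cf M j, h j, rfl⟩, hj⟩

/-- strong convergence of all continuous functions -/
theorem all_conv (h : ∀ j, cf M j ∈ SS W M hM) (f : C(KK d M, ℝ)) (u : L2 (Site d)) :
    ∃ y, Tendsto (fun t => GG W M hM f t u) atTop (𝓝 y) := by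
  refine cauchySeq_tendsto_of_complete ?_
  rw [Metric.cauchySeq_iff]
  intro ε hε
  obtain ⟨g, hg⟩ := ContinuousMap.exists_mem_subalgebra_near_continuousMap_of_separatesPoints
    (SS W M hM) (SS_sep W M hM h) f (ε / 3 / (‖u‖ + 1)) (by positivity)
  obtain ⟨y, hy⟩ := g.2 u
  obtain ⟨N, hN⟩ := Metric.cauchySeq_iff.1 hy.cauchySeq (ε / 3) (by positivity)
  refine ⟨N, fun m hm n hn => ?_⟩
  have h1 : ∀ t, ‖GG W M hM f t u - GG W M hM g t u‖ < ε / 3 := by
    intro t
    rw [← GG_sub, ← norm_neg]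
    have h2 := GG_norm W M hM (f - g) t u
    rw [norm_neg]
    refine h2.trans_lt ?_
    have h3 : ‖f - (g : C(KK d M, ℝ))‖ < ε / 3 / (‖u‖ + 1) := by
      rw [← norm_neg, neg_sub]
      exact hg
    have h4 := norm_nonneg u
    have h5 : 0 < ‖u‖ + 1 := by positivity
    rw [lt_div_iff₀ h5] at h3
    have h6 := norm_nonneg (f - (g : C(KK d M, ℝ)))
    nlinarith
  have h2 := hN m hm n hn
  rw [dist_eq_norm] at h2 ⊢
  have e : GG W M hM f m u - GG W M hM f n u = (GG W M hM f m u - GG W M hM g m u) +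
      (GG W M hM g m u - GG W M hM g n u) - (GG W M hM f n u - GG W M hM g n u) := by abel
  rw [e]
  have h3 := h1 m
  have h4 := h1 n
  calc ‖(GG W M hM f m u - GG W M hM g m u) +
      (GG W M hM g m u - GG W M hM g n u) - (GG W M hM f n u - GG W M hM g n u)‖
      ≤ ‖(GG W M hM f m u - GG W M hM g m u) + (GG W M hM g m u - GG W M hM g n u)‖ +
        ‖GG W M hM f n u - GG W M hM g n u‖ := norm_sub_le _ _
    _ ≤ ‖GG W M hM f m u - GG W M hM g m u‖ + ‖GG W M hM g m u - GG W M hM g n u‖ +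
        ‖GG W M hM f n u - GG W M hM g n u‖ := by
        gcongr
        exact norm_add_le _ _
    _ < ε := by linarith

/-- the origin of the cube -/
noncomputable def oo (M : ℝ) (hM : 0 ≤ M) : KK d M :=
  ⟨fun _ => 0, fun _ _ => ⟨by linarith, hM⟩⟩

/-- the algebra of the functions which converge to their value at the origin, on one vector -/
noncomputable def SZ (u : L2 (Site d)) : Subalgebra ℝ C(KK d M, ℝ) where
  carrier := {f | Tendsto (fun t => GG W M hM f t u) atTop (𝓝 ((f (oo M hM) : ℂ) • u))}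
  mul_mem' := by
    intro f g hf hg
    show Tendsto (fun t => GG W M hM (f * g) t u) atTop (𝓝 (((f * g) (oo M hM) : ℂ) • u))
    have h1 : Tendsto (fun t => GG W M hM f t (GG W M hM g t u - (g (oo M hM) : ℂ) • u)) atTop
        (𝓝 0) := by
      refine squeeze_zero_norm (fun t => GG_norm W M hM f t _) ?_
      have := (tendsto_iff_norm_sub_tendsto_zero.1 hg).const_mul ‖f‖
      simpa using this
    have h3 : Tendsto (fun t => (g (oo M hM) : ℂ) • GG W M hM f t u) atTop
        (𝓝 ((g (oo M hM) : ℂ) • ((f (oo M hM) : ℂ) • u))) := hf.const_smul _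
    have h2 := h1.add h3
    rw [zero_add, smul_smul] at h2
    have e : ((f * g) (oo M hM) : ℂ) = (g (oo M hM) : ℂ) * (f (oo M hM) : ℂ) := by
      rw [ContinuousMap.mul_apply]
      push_cast
      ring
    rw [e]
    refine h2.congr fun t => ?_
    rw [GG_mul, GG_subv, GG_smulv, sub_add_cancel]
  add_mem' := by
    intro f g hf hg
    show Tendsto (fun t => GG W M hM (f + g) t u) atTop (𝓝 (((f + g) (oo M hM) : ℂ) • u))
    have h2 := Tendsto.add hf hg
    rw [← add_smul] at h2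
    have e : ((f + g) (oo M hM) : ℂ) = (f (oo M hM) : ℂ) + (g (oo M hM) : ℂ) := by
      rw [ContinuousMap.add_apply]
      push_cast
      ring
    rw [e]
    exact h2.congr fun t => (GG_add W M hM f g t u).symm
  algebraMap_mem' := by
    intro r
    show Tendsto (fun t => GG W M hM (algebraMap ℝ C(KK d M, ℝ) r) t u) atTop
      (𝓝 (((algebraMap ℝ C(KK d M, ℝ) r) (oo M hM) : ℂ) • u))
    exact tendsto_const_nhds.congr fun t => (GG_const W M hM r t u).symm

theorem SZ_sep (u : L2 (Site d)) (h : ∀ j, cf M j ∈ SZ W M hM u) :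
    (SZ W M hM u).SeparatesPoints := by
  intro x y hxy
  obtain ⟨j, hj⟩ : ∃ j, x.1 j ≠ y.1 j := by
    by_contra hcon
    push Not at hcon
    exact hxy (Subtype.ext (funext hcon))
  exact ⟨cf M j, ⟨cf M j, h j, rfl⟩, hj⟩

theorem zero_conv (u : L2 (Site d)) (h : ∀ j, cf M j ∈ SZ W M hM u) (f : C(KK d M, ℝ)) :
    Tendsto (fun t => GG W M hM f t u) atTop (𝓝 ((f (oo M hM) : ℂ) • u)) := by
  rw [Metric.tendsto_atTop]
  intro ε hε
  obtain ⟨g, hg⟩ := ContinuousMap.exists_mem_subalgebra_near_continuousMap_of_separatesPoints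
    (SZ W M hM u) (SZ_sep W M hM u h) f (ε / 3 / (‖u‖ + 1)) (by positivity)
  have hy : Tendsto (fun t => GG W M hM g t u) atTop (𝓝 (((g : C(KK d M, ℝ)) (oo M hM) : ℂ) • u)) :=
    g.2
  obtain ⟨N, hN⟩ := Metric.tendsto_atTop.1 hy (ε / 3) (by positivity)
  refine ⟨N, fun m hm => ?_⟩
  have h5 : 0 < ‖u‖ + 1 := by positivity
  have h3 : ‖f - (g : C(KK d M, ℝ))‖ < ε / 3 / (‖u‖ + 1) := by
    rw [← norm_neg, neg_sub]
    exact hg
  have h6 := norm_nonneg (f - (g : C(KK d M, ℝ)))
  have h4 := norm_nonneg u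
  rw [lt_div_iff₀ h5] at h3
  have h1 : ‖GG W M hM f m u - GG W M hM g m u‖ < ε / 3 := by
    rw [← GG_sub]
    refine (GG_norm W M hM (f - g) m u).trans_lt ?_
    nlinarith
  have h2 := hN m hm
  rw [dist_eq_norm] at h2 ⊢
  have h7 : ‖((f (oo M hM) : ℂ) • u) - (((g : C(KK d M, ℝ)) (oo M hM) : ℂ) • u)‖ < ε / 3 := by
    rw [← sub_smul, norm_smul]
    have : ‖((f (oo M hM) : ℝ) : ℂ) - (((g : C(KK d M, ℝ)) (oo M hM) : ℝ) : ℂ)‖ ≤
        ‖f - (g : C(KK d M, ℝ))‖ := by
      rw [← Complex.ofReal_sub, Complex.norm_real]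
      exact ContinuousMap.norm_coe_le_norm (f - (g : C(KK d M, ℝ))) (oo M hM)
    nlinarith [norm_nonneg (((f (oo M hM) : ℝ) : ℂ) - (((g : C(KK d M, ℝ)) (oo M hM) : ℝ) : ℂ))]
  have e : GG W M hM f m u - (f (oo M hM) : ℂ) • u = (GG W M hM f m u - GG W M hM g m u) +
      (GG W M hM g m u - ((g : C(KK d M, ℝ)) (oo M hM) : ℂ) • u) -
      (((f (oo M hM) : ℂ) • u) - (((g : C(KK d M, ℝ)) (oo M hM) : ℂ) • u)) := by abel
  rw [e]
  calc ‖(GG W M hM f m u - GG W M hM g m u) +
      (GG W M hM g m u - ((g : C(KK d M, ℝ)) (oo M hM) : ℂ) • u) -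
      (((f (oo M hM) : ℂ) • u) - (((g : C(KK d M, ℝ)) (oo M hM) : ℂ) • u))‖
      ≤ ‖(GG W M hM f m u - GG W M hM g m u) +
        (GG W M hM g m u - ((g : C(KK d M, ℝ)) (oo M hM) : ℂ) • u)‖ +
        ‖((f (oo M hM) : ℂ) • u) - (((g : C(KK d M, ℝ)) (oo M hM) : ℂ) • u)‖ := norm_sub_le _ _
    _ ≤ ‖GG W M hM f m u - GG W M hM g m u‖ +
        ‖GG W M hM g m u - ((g : C(KK d M, ℝ)) (oo M hM) : ℂ) • u‖ +
        ‖((f (oo M hM) : ℂ) • u) - (((g : C(KK d M, ℝ)) (oo M hM) : ℂ) • u)‖ := by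
        gcongr
        exact norm_add_le _ _
    _ < ε := by linarith

end Pool.Agent.U619.BS
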